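import Mathlib
import Pool.Agent.Y733.UD.Fin

/-!
# The uniform abc inequality for almost all points, over all number fields of all degrees

All constants below are absolute: they depend neither on the number field `K` nor on its degree
`n`. For `x ∈ K`, `x ≠ 0, 1`, the triple `(x, 1 - x, -1)` represents the point `(a : b : c)` with
`a + b + c = 0`, `abc ≠ 0`; `H x`, `N x` are its height and its conductor and `δ_K` is the root
discriminant.

The number of points with `H ≤ B` and `N ≤ Q` is at most `(C * B ^ ε * Q ^ (2/3)) ^ n`. Hence the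
points with `H ≤ B` which violate `H ≤ c * δ_K * N` are at most the proportion
`(C * B ^ (-1/3 + ε) * δ_K ^ (-1/6)) ^ n` of all points with `H ≤ B`, for every number field and
every `B`.

Proof: a point is determined by two of its three ideals and by a unit. The ideals are counted by
Rankin's method, with at most `n` primes above each rational prime. The units are counted with the
mean (not the maximum) of the absolute values of their logarithms, by packing. The lower bounds for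
the number of all points come from Minkowski's theorem: the integers of `K` with all conjugates
less than `T` and the quotients of two of them, where the number of representations of
a quotient is bounded by means of the same counts of ideals and units.
-/

set_option autoImplicit false

namespace Pool.Agent.Results.MP_6e34ef_nt.AllDegreesAlmostAll

open NumberField IsDedekindDomain

section Defs

variable {K : Type} [Field K] [NumberField K]

/-- `log H(x_0, x_1, x_2)` -/
noncomputable def logH (x : Fin 3 → K) : ℝ :=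
  (∑ w : InfinitePlace K, (w.mult : ℝ) * Real.log (max (w (x 0)) (max (w (x 1)) (w (x 2)))) +
    ∑ᶠ v : HeightOneSpectrum (𝓞 K), Real.log
      (max (FinitePlace.mk v (x 0)) (max (FinitePlace.mk v (x 1)) (FinitePlace.mk v (x 2))))) /
    (Module.finrank ℚ K : ℝ)

/-- `log N(x_0, x_1, x_2)` -/
noncomputable def logN (x : Fin 3 → K) : ℝ :=
  (∑ᶠ (v : HeightOneSpectrum (𝓞 K)) (_ : ¬ (FinitePlace.mk v (x 0) = FinitePlace.mk v (x 1) ∧
      FinitePlace.mk v (x 1) = FinitePlace.mk v (x 2))),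
    Real.log (Ideal.absNorm v.asIdeal : ℝ)) / (Module.finrank ℚ K : ℝ)

/-- the height of `(x, 1 - x, -1)` -/
noncomputable def H (x : K) : ℝ := Real.exp (logH ![x, 1 - x, -1])

/-- the conductor of `(x, 1 - x, -1)` -/
noncomputable def N (x : K) : ℝ := Real.exp (logN ![x, 1 - x, -1])

variable (K)

/-- the root discriminant `δ_K` -/
noncomputable def rootDisc : ℝ :=
  |(NumberField.discr K : ℝ)| ^ (1 / (Module.finrank ℚ K : ℝ))

/-- the points of height at most `B` -/
def Pts (B : ℝ) : Set K := {x | x ≠ 0 ∧ x ≠ 1 ∧ H x ≤ B}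

/-- the points of height at most `B` which violate `H ≤ c * (δ_K * N) ^ κ` -/
def Viol (κ c B : ℝ) : Set K := {x ∈ Pts K B | c * (rootDisc K * N x) ^ κ < H x}

end Defs

section Aux

open Pool.Agent.Y733.UD Pool.Agent.W223.AK

variable {K : Type} [Field K] [NumberField K]

theorem n_pos : (0 : ℝ) < Module.finrank ℚ K := by
  linarith [finrank_one_le K]

theorem logH_eq (x : K) : (Module.finrank ℚ K : ℝ) * logH ![x, 1 - x, -1] = H3 (tri x) := by
  unfold logH H3
  rw [mul_div_cancel₀ _ n_pos.ne']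
  rfl

theorem logN_eq (x : K) : (Module.finrank ℚ K : ℝ) * logN ![x, 1 - x, -1] = R3 ∅ (tri x) := by
  unfold logN R3
  rw [mul_div_cancel₀ _ n_pos.ne']
  refine finsum_congr fun v => ?_
  simp only [Set.mem_empty_iff_false, not_false_eq_true, true_and]
  rfl

theorem logN_nonneg (x : K) : 0 ≤ logN ![x, 1 - x, -1] :=
  div_nonneg (finsum_nonneg fun _ => finsum_nonneg fun _ => Real.log_natCast_nonneg _)
    (Nat.cast_nonneg _)

theorem rootDisc_eq : rootDisc K = Real.exp (rd K) := by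
  unfold rootDisc rd
  have h : (0 : ℝ) < |(NumberField.discr K : ℝ)| := by linarith [one_le_disc K]
  rw [Real.rpow_def_of_pos h]
  congr 1
  ring

theorem mem_Pts {B : ℝ} (hB : 0 < B) {x : K} : x ∈ Pts K B ↔
    x ≠ 0 ∧ x ≠ 1 ∧ H3 (tri x) ≤ Module.finrank ℚ K * Real.log B := by
  have h : H x ≤ B ↔ H3 (tri x) ≤ Module.finrank ℚ K * Real.log B := by
    unfold H
    rw [← logH_eq, mul_le_mul_iff_right₀ n_pos, ← Real.le_log_iff_exp_le hB]
  show (x ≠ 0 ∧ x ≠ 1 ∧ H x ≤ B) ↔ _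
  rw [h]

theorem viol_cond {κ c : ℝ} (hc : 0 < c) {x : K} :
    c * (rootDisc K * N x) ^ κ < H x ↔
      Real.log c + κ * (rd K + logN ![x, 1 - x, -1]) < logH ![x, 1 - x, -1] := by
  have h1 : c * (rootDisc K * N x) ^ κ =
      Real.exp (Real.log c + κ * (rd K + logN ![x, 1 - x, -1])) := by
    unfold N
    rw [rootDisc_eq, ← Real.exp_add, ← Real.exp_mul, Real.exp_add, Real.exp_log hc,
      mul_comm κ]
  rw [h1]
  unfold H
  exact Real.exp_lt_exp

theorem ncard_le {S : Set K} {b : ℝ} (h : ∀ E : Finset K, (E : Set K) ⊆ S → (E.card : ℝ) ≤ b) :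
    S.Finite ∧ (S.ncard : ℝ) ≤ b := by
  have hfin : S.Finite := by
    by_contra hinf
    obtain ⟨t, ht, hcard⟩ := Set.Infinite.exists_subset_card_eq hinf (⌊b⌋₊ + 1)
    have h1 := h t ht
    rw [hcard] at h1
    have h2 := Nat.lt_floor_add_one b
    push_cast at h1
    linarith
  refine ⟨hfin, ?_⟩
  have h1 := h hfin.toFinset (by simp)
  rwa [← Set.ncard_eq_toFinset_card S hfin] at h1

theorem le_ncard {S : Set K} (hS : S.Finite) {b : ℝ} {E : Finset K} (hE : (E : Set K) ⊆ S)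
    (h : b ≤ E.card) : b ≤ (S.ncard : ℝ) := by
  refine h.trans ?_
  rw [← Set.ncard_coe_finset]
  exact_mod_cast Set.ncard_le_ncard hE hS

theorem pow_form {n : ℕ} {C B Q α β : ℝ} (hC : 0 < C) (hB : 0 < B) (hQ : 0 < Q) :
    (C * B ^ α * Q ^ β) ^ n = Real.exp (n * (Real.log C + α * Real.log B + β * Real.log Q)) := by
  rw [Real.exp_nat_mul, Real.exp_add, Real.exp_add, Real.exp_log hC, Real.rpow_def_of_pos hB,
    Real.rpow_def_of_pos hQ, mul_comm α, mul_comm β]

theorem fin_Pts {B : ℝ} (hB : 0 < B) : (Pts K B).Finite := by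
  obtain ⟨A, _, h⟩ := total_upper (ε := 1) one_pos
  exact (ncard_le fun E hE => h K (Real.log B) E fun x hx =>
    (mem_Pts hB).1 (hE (Finset.mem_coe.2 hx))).1

end Aux

open Pool.Agent.Y733.UD Pool.Agent.W223.AK

/-- points of bounded height and conductor -/
theorem part_one (ε : ℝ) (hε : 0 < ε) : ∃ C : ℝ, 0 < C ∧
    ∀ (K : Type) [Field K] [NumberField K] (B Q : ℝ), 1 ≤ B → 1 ≤ Q →
      {x ∈ Pts K B | N x ≤ Q}.Finite ∧ ({x ∈ Pts K B | N x ≤ Q}.ncard : ℝ) ≤
        (C * B ^ ε * Q ^ (2 / 3 : ℝ)) ^ Module.finrank ℚ K := by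
  obtain ⟨A, hA, h⟩ := upper hε
  refine ⟨Real.exp A, Real.exp_pos _, ?_⟩
  intro K _ _ B Q hB hQ
  have hB0 : 0 < B := by linarith
  have hQ0 : 0 < Q := by linarith
  rw [pow_form (Real.exp_pos _) hB0 hQ0, Real.log_exp]
  refine ncard_le fun E hE => ?_
  refine (h K (Real.log B) (Real.log Q) E ?_).trans (le_of_eq (by congr 2; ring))
  intro x hx
  obtain ⟨h1, h2⟩ := hE (Finset.mem_coe.2 hx)
  obtain ⟨h3, h4, h5⟩ := (mem_Pts hB0).1 h1
  refine ⟨h3, h4, h5, ?_⟩
  rw [← logN_eq]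
  apply mul_le_mul_of_nonneg_left _ n_pos.le
  rw [Real.le_log_iff_exp_le hQ0]
  exact h2

/-- the violations, logarithmic form -/
theorem viol_log (κ c ε : ℝ) (hκ : 0 < κ) (hc : 0 < c) (hε : 0 < ε) : ∃ A : ℝ,
    ∀ (K : Type) [Field K] [NumberField K] (B : ℝ), 1 ≤ B →
      ((Viol K κ c B).ncard : ℝ) ≤ Real.exp (Module.finrank ℚ K *
        (A + (2 / (3 * κ) + ε) * Real.log B - 2 / 3 * rd K)) := by
  obtain ⟨A, hA, h⟩ := upper hε
  refine ⟨A - 2 / (3 * κ) * Real.log c, ?_⟩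
  intro K _ _ B hB
  have hB0 : 0 < B := by linarith
  refine (ncard_le fun E hE => ?_).2
  refine (h K (Real.log B) ((Real.log B - Real.log c) / κ - rd K) E ?_).trans (le_of_eq ?_)
  · intro x hx
    obtain ⟨h1, h2⟩ := hE (Finset.mem_coe.2 hx)
    obtain ⟨h3, h4, h5⟩ := (mem_Pts hB0).1 h1
    refine ⟨h3, h4, h5, ?_⟩
    rw [← logN_eq]
    apply mul_le_mul_of_nonneg_left _ n_pos.le
    rw [viol_cond hc] at h2
    rw [← logH_eq, mul_le_mul_iff_right₀ n_pos] at h5
    rw [le_sub_iff_add_le, le_div_iff₀ hκ]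
    nlinarith
  · congr 2
    field_simp
    ring

/-- the violations -/
theorem part_two (κ c ε : ℝ) (hκ : 0 < κ) (hc : 0 < c) (hε : 0 < ε) : ∃ C : ℝ, 0 < C ∧
    ∀ (K : Type) [Field K] [NumberField K] (B : ℝ), 1 ≤ B →
      ((Viol K κ c B).ncard : ℝ) ≤
        (C * B ^ (2 / (3 * κ) + ε) * rootDisc K ^ (-(2 / 3) : ℝ)) ^ Module.finrank ℚ K := by
  obtain ⟨A, h⟩ := viol_log κ c ε hκ hc hε
  refine ⟨Real.exp A, Real.exp_pos _, ?_⟩
  intro K _ _ B hB
  have hB0 : 0 < B := by linarith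
  have hδ : 0 < rootDisc K := by rw [rootDisc_eq]; exact Real.exp_pos _
  rw [pow_form (Real.exp_pos _) hB0 hδ, Real.log_exp, rootDisc_eq, Real.log_exp]
  refine (h K B hB).trans (le_of_eq (by congr 2; ring))

theorem sqrt_rootDisc {K : Type} [Field K] [NumberField K] :
    √(rootDisc K) = Real.exp (rd K / 2) := by
  rw [rootDisc_eq, Real.exp_half]

theorem log_cond {K : Type} [Field K] [NumberField K] {B : ℝ} (h : 16 * √(rootDisc K) ≤ B) :
    Real.log 16 + rd K / 2 ≤ Real.log B := by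
  rw [sqrt_rootDisc] at h
  have h1 := Real.log_le_log (by positivity) h
  rwa [Real.log_mul (by norm_num) (Real.exp_pos _).ne', Real.log_exp] at h1

theorem B_pos {K : Type} [Field K] [NumberField K] {B : ℝ} (h : 16 * √(rootDisc K) ≤ B) :
    0 < B := by
  rw [sqrt_rootDisc] at h
  have : 0 < 16 * Real.exp (rd K / 2) := by positivity
  linarith

/-- all points, small heights -/
theorem part_three (K : Type) [Field K] [NumberField K] (B : ℝ) (h : 16 * √(rootDisc K) ≤ B) :
    (B / (12 * √(rootDisc K))) ^ Module.finrank ℚ K ≤ ((Pts K B).ncard : ℝ) := by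
  have hB := B_pos h
  obtain ⟨E, hE, hcard⟩ := total_lower_simple K (Real.log B) (log_cond h)
  refine le_ncard (fin_Pts hB) (fun x hx => (mem_Pts hB).2 (hE x (Finset.mem_coe.1 hx))) ?_
  refine le_trans (le_of_eq ?_) hcard
  rw [Real.exp_nat_mul, Real.exp_sub, Real.exp_sub, Real.exp_log hB, Real.exp_log (by norm_num),
    sqrt_rootDisc]
  congr 1
  field_simp

/-- all points, large heights -/
theorem total_log (ε : ℝ) (hε : 0 < ε) : ∃ A : ℝ, 0 ≤ A ∧
    ∀ (K : Type) [Field K] [NumberField K] (B : ℝ), 16 * √(rootDisc K) ≤ B →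
      Real.exp (Module.finrank ℚ K * ((2 - ε) * Real.log B - (2 + ε) * rd K - A)) ≤
        ((Pts K B).ncard : ℝ) := by
  set ε1 : ℝ := min (ε / 4) 1 with hε1
  have h1 : 0 < ε1 := lt_min (by positivity) one_pos
  have h2 : ε1 ≤ 1 := min_le_right _ _
  have h3 : 4 * ε1 ≤ ε := by
    have := min_le_left (ε / 4) 1
    rw [← hε1] at this
    linarith
  obtain ⟨A, hA, h⟩ := total_lower h1 h2
  refine ⟨A, hA, ?_⟩
  intro K _ _ B hBK
  have hB := B_pos hBK
  have hl := log_cond hBK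
  obtain ⟨E, hE, hcard⟩ := h K (Real.log B) hl
  refine le_ncard (fin_Pts hB) (fun x hx => (mem_Pts hB).2 (hE x (Finset.mem_coe.1 hx))) ?_
  refine le_trans (Real.exp_le_exp.2 ?_) hcard
  apply mul_le_mul_of_nonneg_left _ n_pos.le
  have h4 := rd_nonneg K
  have h5 : 0 ≤ Real.log 16 := Real.log_nonneg (by norm_num)
  nlinarith

theorem part_four (ε : ℝ) (hε : 0 < ε) : ∃ C : ℝ, 0 < C ∧
    ∀ (K : Type) [Field K] [NumberField K] (B : ℝ), 1 ≤ B →
      (Pts K B).Finite ∧ ((Pts K B).ncard : ℝ) ≤ (C * B ^ (2 + ε)) ^ Module.finrank ℚ K ∧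
      (16 * √(rootDisc K) ≤ B →
        (C⁻¹ * B ^ (2 - ε) * rootDisc K ^ (-(2 + ε))) ^ Module.finrank ℚ K ≤
          ((Pts K B).ncard : ℝ)) := by
  obtain ⟨A1, hA1, h1⟩ := total_upper hε
  obtain ⟨A2, hA2, h2⟩ := total_log ε hε
  refine ⟨Real.exp (A1 + A2), Real.exp_pos _, ?_⟩
  intro K _ _ B hB
  have hB0 : 0 < B := by linarith
  have hδ : 0 < rootDisc K := by rw [rootDisc_eq]; exact Real.exp_pos _
  have hn := n_pos (K := K)
  refine ⟨fin_Pts hB0, ?_, ?_⟩
  · have h3 := (ncard_le (S := Pts K B) fun E hE => h1 K (Real.log B) E fun x hx =>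
      (mem_Pts hB0).1 (hE (Finset.mem_coe.2 hx))).2
    refine h3.trans ?_
    rw [Real.rpow_def_of_pos hB0, ← Real.exp_add, ← Real.exp_nat_mul]
    apply Real.exp_le_exp.2
    apply mul_le_mul_of_nonneg_left _ hn.le
    linarith
  · intro hBK
    refine le_trans ?_ (h2 K B hBK)
    rw [pow_form (by positivity) hB0 hδ, Real.log_inv, Real.log_exp, rootDisc_eq, Real.log_exp]
    apply Real.exp_le_exp.2
    apply mul_le_mul_of_nonneg_left _ hn.le
    linarith

theorem viol_le_pts {K : Type} [Field K] [NumberField K] {κ c B : ℝ} (hB : 0 < B) :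
    ((Viol K κ c B).ncard : ℝ) ≤ ((Pts K B).ncard : ℝ) := by
  have h : Viol K κ c B ⊆ Pts K B := fun x hx => hx.1
  exact_mod_cast Set.ncard_le_ncard h (fin_Pts hB)

/-- the proportion of the violations, all heights -/
theorem prop_log (κ c ε : ℝ) (hκ : 1 ≤ κ) (hc : 0 < c) (hε : 0 < ε) : ∃ A : ℝ,
    ∀ (K : Type) [Field K] [NumberField K] (B : ℝ), 1 ≤ B →
      ((Viol K κ c B).ncard : ℝ) ≤ Real.exp (Module.finrank ℚ K *
        (A + (2 / (3 * κ) - 1 + ε) * Real.log B - 1 / 6 * rd K)) * ((Pts K B).ncard : ℝ) := by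
  have hκ0 : 0 < κ := by linarith
  obtain ⟨A, h⟩ := viol_log κ c ε hκ0 hc hε
  have hl16 : 0 ≤ Real.log 16 := Real.log_nonneg (by norm_num)
  have hl12 : 0 ≤ Real.log 12 := Real.log_nonneg (by norm_num)
  have hlc := abs_nonneg (Real.log c)
  refine ⟨|A| + Real.log 12 + (1 + ε) * (2 * Real.log 16 + |Real.log c|) +
    (Real.log 16 + |Real.log c|), ?_⟩
  intro K _ _ B hB
  have hB0 : 0 < B := by linarith
  have hlB : 0 ≤ Real.log B := Real.log_nonneg hB
  have hn := n_pos (K := K)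
  have hrd := rd_nonneg K
  rcases le_or_gt (16 * √(rootDisc K)) B with hBK | hBK
  · obtain ⟨E, hE, hcard⟩ := total_lower_simple K (Real.log B) (log_cond hBK)
    have h1 := le_ncard (fin_Pts hB0) (fun x hx => (mem_Pts hB0).2 (hE x (Finset.mem_coe.1 hx)))
      hcard
    refine (h K B hB).trans ?_
    refine le_trans ?_ (mul_le_mul_of_nonneg_left h1 (Real.exp_pos _).le)
    rw [← Real.exp_add]
    apply Real.exp_le_exp.2
    rw [← mul_add]
    apply mul_le_mul_of_nonneg_left _ hn.le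
    have h2 := le_abs_self A
    have h3 : 0 ≤ (1 + ε) * (2 * Real.log 16 + |Real.log c|) := by positivity
    linarith
  · rcases (Viol K κ c B).eq_empty_or_nonempty with hV | ⟨x, hx⟩
    · rw [hV, Set.ncard_empty, Nat.cast_zero]
      positivity
    · obtain ⟨h1, h2⟩ := hx
      rw [viol_cond hc] at h2
      obtain ⟨_, _, h5⟩ := (mem_Pts hB0).1 h1
      rw [← logH_eq, mul_le_mul_iff_right₀ hn] at h5
      have h6 := logN_nonneg x
      have h7 : Real.log B < Real.log 16 + rd K / 2 := by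
        rw [sqrt_rootDisc] at hBK
        have h1 := Real.log_lt_log hB0 hBK
        rwa [Real.log_mul (by norm_num) (Real.exp_pos _).ne', Real.log_exp] at h1
      have h8 : rd K ≤ κ * (rd K + logN ![x, 1 - x, -1]) := by nlinarith
      have h9 := neg_abs_le (Real.log c)
      have h10 : rd K / 2 < Real.log 16 + |Real.log c| := by linarith
      have h11 : Real.log B ≤ 2 * Real.log 16 + |Real.log c| := by linarith
      refine le_trans (viol_le_pts hB0) ?_
      refine le_mul_of_one_le_left (Nat.cast_nonneg _) (Real.one_le_exp ?_)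
      apply mul_nonneg hn.le
      have h12 : 0 < 2 / (3 * κ) := by positivity
      have h13 : -((1 + ε) * Real.log B) ≤ (2 / (3 * κ) - 1 + ε) * Real.log B := by
        nlinarith [mul_nonneg h12.le hlB, mul_nonneg hε.le hlB]
      have h14 : (1 + ε) * Real.log B ≤ (1 + ε) * (2 * Real.log 16 + |Real.log c|) :=
        mul_le_mul_of_nonneg_left h11 (by linarith)
      have h15 := abs_nonneg A
      linarith

theorem part_five (κ c ε : ℝ) (hκ : 1 ≤ κ) (hc : 0 < c) (hε : 0 < ε) : ∃ C : ℝ, 0 < C ∧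
    ∀ (K : Type) [Field K] [NumberField K] (B : ℝ), 1 ≤ B →
      ((Viol K κ c B).ncard : ℝ) ≤
        (C * B ^ (2 / (3 * κ) - 1 + ε) * rootDisc K ^ (-(1 / 6) : ℝ)) ^ Module.finrank ℚ K *
          ((Pts K B).ncard : ℝ) := by
  obtain ⟨A, h⟩ := prop_log κ c ε hκ hc hε
  refine ⟨Real.exp A, Real.exp_pos _, ?_⟩
  intro K _ _ B hB
  have hB0 : 0 < B := by linarith
  have hδ : 0 < rootDisc K := by rw [rootDisc_eq]; exact Real.exp_pos _
  rw [pow_form (Real.exp_pos _) hB0 hδ, Real.log_exp, rootDisc_eq, Real.log_exp]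
  refine (h K B hB).trans (le_of_eq (by congr 3; ring))

/-- the proportion of the violations, large heights -/
theorem part_six (κ c ε : ℝ) (hκ : 0 < κ) (hc : 0 < c) (hε : 0 < ε) : ∃ C : ℝ, 0 < C ∧
    ∀ (K : Type) [Field K] [NumberField K] (B : ℝ), 1 ≤ B →
      ((Viol K κ c B).ncard : ℝ) ≤
        (C * B ^ (2 / (3 * κ) - 2 + ε) * rootDisc K ^ (4 / 3 + ε)) ^ Module.finrank ℚ K *
          ((Pts K B).ncard : ℝ) := by
  obtain ⟨A1, h1⟩ := viol_log κ c (ε / 2) hκ hc (half_pos hε)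
  obtain ⟨A2, hA2, h2⟩ := total_log (ε / 2) (half_pos hε)
  have hl16 : 0 ≤ Real.log 16 := Real.log_nonneg (by norm_num)
  refine ⟨Real.exp (|A1| + A2 + 2 * Real.log 16), Real.exp_pos _, ?_⟩
  intro K _ _ B hB
  have hB0 : 0 < B := by linarith
  have hlB : 0 ≤ Real.log B := Real.log_nonneg hB
  have hδ : 0 < rootDisc K := by rw [rootDisc_eq]; exact Real.exp_pos _
  have hn := n_pos (K := K)
  have hrd := rd_nonneg K
  have hA1 := abs_nonneg A1
  rw [pow_form (Real.exp_pos _) hB0 hδ, Real.log_exp, rootDisc_eq, Real.log_exp]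
  rcases le_or_gt (16 * √(rootDisc K)) B with hBK | hBK
  · refine (h1 K B hB).trans ?_
    refine le_trans ?_ (mul_le_mul_of_nonneg_left (h2 K B hBK) (Real.exp_pos _).le)
    rw [← Real.exp_add]
    apply Real.exp_le_exp.2
    rw [← mul_add]
    apply mul_le_mul_of_nonneg_left _ hn.le
    have h3 := le_abs_self A1
    nlinarith
  · have h7 : Real.log B < Real.log 16 + rd K / 2 := by
      rw [sqrt_rootDisc] at hBK
      have h1 := Real.log_lt_log hB0 hBK
      rwa [Real.log_mul (by norm_num) (Real.exp_pos _).ne', Real.log_exp] at h1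
    refine le_trans (viol_le_pts hB0) ?_
    refine le_mul_of_one_le_left (Nat.cast_nonneg _) (Real.one_le_exp ?_)
    apply mul_nonneg hn.le
    have h12 : 0 < 2 / (3 * κ) := by positivity
    have h13 : -(2 * Real.log B) ≤ (2 / (3 * κ) - 2 + ε) * Real.log B := by
      nlinarith [mul_nonneg h12.le hlB, mul_nonneg hε.le hlB]
    have h14 : 0 ≤ ε * rd K := by positivity
    nlinarith

/-- the inequality `H ≤ c * δ_K * N`, with an absolute `B0` -/
theorem part_seven (c η : ℝ) (hc : 0 < c) (hη : η < 1 / 3) : ∃ B0 : ℝ,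
    ∀ (K : Type) [Field K] [NumberField K] (B : ℝ), B0 ≤ B →
      ((Viol K 1 c B).ncard : ℝ) ≤
        (B ^ (-η)) ^ Module.finrank ℚ K * ((Pts K B).ncard : ℝ) := by
  set s : ℝ := (1 / 3 - η) / 2 with hs
  have hs0 : 0 < s := by rw [hs]; linarith
  obtain ⟨A, h⟩ := prop_log 1 c s le_rfl hc hs0
  refine ⟨max 1 (Real.exp (A / s)), ?_⟩
  intro K _ _ B hB
  have hB1 : 1 ≤ B := (le_max_left _ _).trans hB
  have hB0 : 0 < B := by linarith
  have hn := n_pos (K := K)
  have hrd := rd_nonneg K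
  have h2 : A / s ≤ Real.log B := by
    rw [Real.le_log_iff_exp_le hB0]
    exact (le_max_right _ _).trans hB
  rw [div_le_iff₀ hs0] at h2
  refine (h K B hB1).trans (mul_le_mul_of_nonneg_right ?_ (Nat.cast_nonneg _))
  rw [Real.rpow_def_of_pos hB0, ← Real.exp_nat_mul]
  apply Real.exp_le_exp.2
  apply mul_le_mul_of_nonneg_left _ hn.le
  have h3 : (2 / (3 * 1) - 1 + s) * Real.log B = (-η - s) * Real.log B := by
    rw [hs]
    ring
  rw [h3]
  nlinarith

/-- the conductor is at most `8 * H ^ 3` -/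
theorem part_eight {K : Type} [Field K] [NumberField K] {x : K} (h0 : x ≠ 0) (h1 : x ≠ 1) :
    N x ≤ 8 * H x ^ 3 := by
  have h := R3_le h0 h1
  rw [← logN_eq, ← logH_eq] at h
  have h2 : logN ![x, 1 - x, -1] ≤ 3 * logH ![x, 1 - x, -1] + 3 * Real.log 2 := by
    have hn := n_pos (K := K)
    have h3 : (Module.finrank ℚ K : ℝ) * logN ![x, 1 - x, -1] ≤
        Module.finrank ℚ K * (3 * logH ![x, 1 - x, -1] + 3 * Real.log 2) := by linarith
    exact le_of_mul_le_mul_left h3 hn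
  unfold N H
  refine (Real.exp_le_exp.2 h2).trans (le_of_eq ?_)
  rw [Real.exp_add, ← Real.exp_nat_mul, mul_comm]
  congr 1
  have : (3 : ℝ) * Real.log 2 = Real.log 8 := by
    rw [show (8 : ℝ) = 2 ^ 3 by norm_num, Real.log_pow]
    norm_num
  rw [this, Real.exp_log (by norm_num)]

/-- **Main theorem.** All constants are absolute: they do not depend on `K` or on its degree `n`.
(1) For all `c > 0` and `η < 1/3` there is `B0` such that for every number field `K` and every
`B ≥ B0` the points of height at most `B` which violate `H ≤ c * δ_K * N` are at most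
the proportion `B ^ (-η * n)` of all points of height at most `B`.
(2) For `κ ≥ 1` the proportion of the violations of `H ≤ c * (δ_K * N) ^ κ` is at most
`(C * B ^ (2 / (3 κ) - 1 + ε) * δ_K ^ (-1/6)) ^ n` for all `B ≥ 1`.
(3) For `κ > 0` it is at most `(C * B ^ (2 / (3 κ) - 2 + ε) * δ_K ^ (4/3 + ε)) ^ n`; here the
exponent of `B` is negative for `κ > 1/3`.
(4) The violations number at most `(C * B ^ (2 / (3 κ) + ε) * δ_K ^ (-2/3)) ^ n`.
(5) The points with `H ≤ B` and `N ≤ Q` number at most `(C * B ^ ε * Q ^ (2/3)) ^ n`.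
(6) The points with `H ≤ B` number at most `(C * B ^ (2 + ε)) ^ n` and for `B ≥ 16 * √δ_K` at least
`(B ^ (2 - ε) / (C * δ_K ^ (2 + ε))) ^ n` and at least `(B / (12 * √δ_K)) ^ n`.
(7) `N ≤ 8 * H ^ 3` always, so that for `κ < 1/3` in every `K` all points of large height violate
`H ≤ c * (δ_K * N) ^ κ`. -/
theorem result :
    (∀ c η : ℝ, 0 < c → η < 1 / 3 → ∃ B0 : ℝ,
      ∀ (K : Type) [Field K] [NumberField K] (B : ℝ), B0 ≤ B →
        ((Viol K 1 c B).ncard : ℝ) ≤
          (B ^ (-η)) ^ Module.finrank ℚ K * ((Pts K B).ncard : ℝ)) ∧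
    (∀ κ c ε : ℝ, 1 ≤ κ → 0 < c → 0 < ε → ∃ C : ℝ, 0 < C ∧
      ∀ (K : Type) [Field K] [NumberField K] (B : ℝ), 1 ≤ B →
        ((Viol K κ c B).ncard : ℝ) ≤
          (C * B ^ (2 / (3 * κ) - 1 + ε) * rootDisc K ^ (-(1 / 6) : ℝ)) ^ Module.finrank ℚ K *
            ((Pts K B).ncard : ℝ)) ∧
    (∀ κ c ε : ℝ, 0 < κ → 0 < c → 0 < ε → ∃ C : ℝ, 0 < C ∧
      ∀ (K : Type) [Field K] [NumberField K] (B : ℝ), 1 ≤ B →
        ((Viol K κ c B).ncard : ℝ) ≤
          (C * B ^ (2 / (3 * κ) - 2 + ε) * rootDisc K ^ (4 / 3 + ε)) ^ Module.finrank ℚ K *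
            ((Pts K B).ncard : ℝ)) ∧
    (∀ κ c ε : ℝ, 0 < κ → 0 < c → 0 < ε → ∃ C : ℝ, 0 < C ∧
      ∀ (K : Type) [Field K] [NumberField K] (B : ℝ), 1 ≤ B →
        ((Viol K κ c B).ncard : ℝ) ≤
          (C * B ^ (2 / (3 * κ) + ε) * rootDisc K ^ (-(2 / 3) : ℝ)) ^ Module.finrank ℚ K) ∧
    (∀ ε : ℝ, 0 < ε → ∃ C : ℝ, 0 < C ∧
      ∀ (K : Type) [Field K] [NumberField K] (B Q : ℝ), 1 ≤ B → 1 ≤ Q →
        {x ∈ Pts K B | N x ≤ Q}.Finite ∧ ({x ∈ Pts K B | N x ≤ Q}.ncard : ℝ) ≤
          (C * B ^ ε * Q ^ (2 / 3 : ℝ)) ^ Module.finrank ℚ K) ∧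
    (∀ ε : ℝ, 0 < ε → ∃ C : ℝ, 0 < C ∧
      ∀ (K : Type) [Field K] [NumberField K] (B : ℝ), 1 ≤ B →
        (Pts K B).Finite ∧ ((Pts K B).ncard : ℝ) ≤ (C * B ^ (2 + ε)) ^ Module.finrank ℚ K ∧
        (16 * √(rootDisc K) ≤ B →
          (C⁻¹ * B ^ (2 - ε) * rootDisc K ^ (-(2 + ε))) ^ Module.finrank ℚ K ≤
            ((Pts K B).ncard : ℝ))) ∧
    (∀ (K : Type) [Field K] [NumberField K] (B : ℝ), 16 * √(rootDisc K) ≤ B →
      (B / (12 * √(rootDisc K))) ^ Module.finrank ℚ K ≤ ((Pts K B).ncard : ℝ)) ∧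
    (∀ (K : Type) [Field K] [NumberField K] (x : K), x ≠ 0 → x ≠ 1 → N x ≤ 8 * H x ^ 3) :=
  ⟨part_seven, part_five, part_six, part_two, part_one, part_four, part_three,
    fun _ _ _ _ h0 h1 => part_eight h0 h1⟩

end Pool.Agent.Results.MP_6e34ef_nt.AllDegreesAlmostAll
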