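import Mathlib
import Pool.Agent.Y729.AE.Count
import Pool.Agent.Y729.RV.Comb
import Pool.Agent.Y729.RV.Base
import Pool.Agent.Y729.AX.Line
import Pool.Agent.Y729.AX.Pairs

/-!
# Few violations of the uniform abc inequality over all extensions of a number field

Let `K` be a number field of degree `d` and `n ≥ 1`. We count the violations of the uniform abc
inequality with exponent `κ > 0`, that is, of `H ≤ exp(c) * (δ_L * N) ^ κ`, over ALL extensions `L`
of `K` of degree `n`. The points over these fields form a thin set among all points of degree `d n`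
over `ℚ`, so that this is not contained in the case `K = ℚ`.

* (A) The number of the pairs `(L, x)` with `[L : K] = n` and `x ∈ L` of height at most `B` such
  that the triple `(x, 1 - x, -1)` violates the inequality over `L` is finite, and at most
  `C * B ^ (d * n * α_n / κ + δ)`.
* (B) The number of the `x` of degree `n` over `K` and of height at most `B` such that
  `(x, 1 - x, -1)` violates the inequality over some number field `L` containing `K(x)`
  is at most `C * B ^ (d * n * exponent (α_n) n κ + δ)`.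

The exponent in (B) is less than `d * n * (n + 1)`, the exponent of the number of all such `x`, for
all `κ` larger than a certain number which is at most `1 / 3`.
-/

set_option autoImplicit false

namespace Pool.Agent.Results.MP_6e34ef_nt.RelativeViolators

open IntermediateField IsDedekindDomain NumberField
open Pool.Agent.Y729.AX (pts)
open Pool.Agent.Y729.RV (cnt)

/-- `log H(x_0, x_1, x_2)`: Mathlib's logarithmic height, divided by the degree of the field. -/
noncomputable def height {L : Type} [Field L] [NumberField L] (x : Fin 3 → L) : ℝ :=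
  Height.logHeight x / Module.finrank ℚ L

open Classical in
/-- `log N(x_0, x_1, x_2)`: the sum of `log #(𝓞 L / v) / [L : ℚ]` over the primes `v` at which the
absolute values of `x_0, x_1, x_2` are not all equal. -/
noncomputable def conductor {L : Type} [Field L] [NumberField L] (x : Fin 3 → L) : ℝ :=
  (∑ᶠ v : HeightOneSpectrum (𝓞 L),
      if ¬ (v.valuation L (x 0) = v.valuation L (x 1) ∧ v.valuation L (x 1) = v.valuation L (x 2))
      then Real.log (Ideal.absNorm v.asIdeal) else 0) / Module.finrank ℚ L

/-- `log δ_L` -/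
noncomputable def rootDisc (L : Type) [Field L] [NumberField L] : ℝ :=
  Real.log |(NumberField.discr L : ℝ)| / Module.finrank ℚ L

/-- The triple `(x, 1 - x, -1)` has height at most `B` and violates the uniform abc inequality
`H ≤ exp(c) * (δ_L * N) ^ κ` over `L`. -/
def Violates {L : Type} [Field L] [NumberField L] (κ c B : ℝ) (x : L) : Prop :=
  x ≠ 0 ∧ x ≠ 1 ∧ height ![x, 1 - x, -1] ≤ Real.log B ∧
    c + κ * (rootDisc L + conductor ![x, 1 - x, -1]) < height ![x, 1 - x, -1]

/-- The pairs `(L, x)` of an extension `L` of `K` of degree `n` in the algebraic closure and `x ∈ L`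
such that `(x, 1 - x, -1)` has height at most `B` and violates the inequality over `L`. -/
def Pairs (K : Type) [Field K] [NumberField K] (n : ℕ) (κ c B : ℝ) :
    Set (IntermediateField K (AlgebraicClosure K) × AlgebraicClosure K) :=
  {p | Module.finrank K p.1 = n ∧ ∃ (_ : NumberField p.1) (x : p.1),
    (x : AlgebraicClosure K) = p.2 ∧ Violates κ c B x}

/-- The `x` of degree `n` over `K` such that `(x, 1 - x, -1)` has height at most `B` and violates
the inequality over some number field `L` containing `K(x)`. -/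
def Points (K : Type) [Field K] [NumberField K] (n : ℕ) (κ c B : ℝ) : Set (AlgebraicClosure K) :=
  {x | Module.finrank K K⟮x⟯ = n ∧ ∃ (L : IntermediateField K (AlgebraicClosure K))
    (_ : NumberField L) (y : L), (y : AlgebraicClosure K) = x ∧ Violates κ c B y}

/-- Schmidt's exponent: `(n + 2) (n - 1) / (4 (n - n / p))`, where `p` is the least prime factor of
`n`. -/
noncomputable def schmidt (n : ℕ) : ℝ :=
  (((n + 2) * (n - 1) : ℕ) : ℝ) / (4 * ((n - n / n.minFac : ℕ) : ℝ))

/-- The exponent of (B): with `m = min 3 (n + 1)`, the smaller of `α / κ` and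
`((3 α - 2) (n + 1 - m) + m α / κ) / (3 α + m - 2)`. -/
noncomputable def exponent (α : ℝ) (n : ℕ) (κ : ℝ) : ℝ :=
  min (α / κ) (((3 * α - 2) * (n + 1 - (min 3 (n + 1) : ℕ)) +
    (min 3 (n + 1) : ℕ) * α / κ) / (3 * α + (min 3 (n + 1) : ℕ) - 2))

lemma aux {α : ℝ} {r : ℕ} (hr : 1 ≤ r) (hα : 2 / 3 ≤ α) :
    (2 : ℝ) ≤ (min 3 (r + 1) : ℕ) ∧ ((min 3 (r + 1) : ℕ) : ℝ) ≤ r + 1 ∧
      0 ≤ 3 * α - 2 ∧ 0 < 3 * α + (min 3 (r + 1) : ℕ) - 2 := by
  have := Pool.Agent.Y729.RV.xp_aux (α := α) hr (le_refl 3) (by norm_num; linarith)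
  push_cast at this ⊢
  exact this

lemma exponent_eq (α : ℝ) (r : ℕ) (M : ℝ) :
    Pool.Agent.Y729.RV.xp α r 3 (3 - 1 / M) = exponent α r M := by
  unfold Pool.Agent.Y729.RV.xp exponent
  have e1 : ((3 : ℕ) : ℝ) - (3 - 1 / M) = 1 / M := by push_cast; ring
  rw [e1]
  push_cast
  congr 1
  · ring
  · congr 1
    ring

lemma exponent_lt {α : ℝ} {r : ℕ} (hr : 1 ≤ r) (hα : 2 / 3 ≤ α) {M : ℝ}
    (hM : α / (3 * α + r - 1) < M) : exponent α r M < r + 1 := by
  obtain ⟨h1, h2, h3, h4⟩ := aux hr hα
  have hr1 : (1 : ℝ) ≤ r := by exact_mod_cast hr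
  have hα0 : 0 < α := by linarith
  have h0 : 0 < 3 * α + r - 1 := by linarith
  have hM0 : 0 < M := lt_trans (by positivity) hM
  refine (min_le_right _ _).trans_lt ?_
  rw [div_lt_iff₀ h4]
  set m : ℝ := ((min 3 (r + 1) : ℕ) : ℝ) with hm
  have h5 : m * α / M < m * (3 * α + r - 1) := by
    rw [div_lt_iff₀ hM0]
    rw [div_lt_iff₀ h0] at hM
    have hm0 : 0 < m := by linarith
    nlinarith
  nlinarith

lemma threshold {α : ℝ} {r : ℕ} (hr : 1 ≤ r) (hα : 2 / 3 ≤ α) :
    α / (3 * α + r - 1) ≤ 1 / 3 ∧ (2 ≤ r → α / (3 * α + r - 1) < 1 / 3) := by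
  have hr1 : (1 : ℝ) ≤ r := by exact_mod_cast hr
  have h0 : 0 < 3 * α + r - 1 := by linarith
  constructor
  · rw [div_le_div_iff₀ h0 (by norm_num)]
    linarith
  · intro h
    have hr2 : (2 : ℝ) ≤ r := by exact_mod_cast h
    rw [div_lt_div_iff₀ h0 (by norm_num)]
    linarith

lemma exponent_nonneg {α : ℝ} {r : ℕ} (hr : 1 ≤ r) (hα : 2 / 3 ≤ α) {M : ℝ} (hM : 0 < M) :
    0 ≤ exponent α r M := by
  obtain ⟨h1, h2, h3, h4⟩ := aux hr hα
  have hα0 : 0 ≤ α := by linarith
  unfold exponent
  refine le_min (by positivity) (div_nonneg (add_nonneg (mul_nonneg h3 (by linarith)) ?_) h4.le)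
  positivity

lemma schmidt_ge {n : ℕ} (hn : 2 ≤ n) : 2 / 3 ≤ schmidt n := by
  unfold schmidt
  have h1 : 1 ≤ n / n.minFac :=
    Nat.div_pos (Nat.minFac_le (by omega)) (Nat.minFac_pos n)
  have h1' : n / n.minFac < n := Nat.div_lt_self (by omega) (Nat.minFac_prime (by omega)).one_lt
  have h2 : n - n / n.minFac ≤ n - 1 := by omega
  have h3 : (0 : ℝ) < ((n - n / n.minFac : ℕ) : ℝ) := by
    exact_mod_cast (show 0 < n - n / n.minFac by omega)
  rw [div_le_div_iff₀ (by norm_num) (by positivity)]
  have h4 : 2 * (4 * (n - n / n.minFac)) ≤ ((n + 2) * (n - 1)) * 3 := by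
    have h5 : 4 * (n - 1) ≤ (n + 2) * (n - 1) := Nat.mul_le_mul_right _ (by omega)
    omega
  exact_mod_cast h4

lemma log_disc_nonneg (L : Type) [Field L] [NumberField L] :
    0 ≤ Real.log |(NumberField.discr L : ℝ)| := by
  refine Real.log_nonneg ?_
  have h : (1 : ℤ) ≤ |NumberField.discr L| := Int.one_le_abs (NumberField.discr_ne_zero L)
  exact_mod_cast h

section core

variable {K L : Type} [Field K] [NumberField K] [Field L] [NumberField L] [Algebra K L]

/-- The main properties of the parameter `x / (2 - x)` of a violation. -/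
lemma core {κ c B : ℝ} (hκ : 0 < κ) {x : L} (hx : Violates κ c B x) (h2 : x ≠ 2) :
    (∀ j, x / (2 - x) ≠ algebraMap K L (pts K j)) ∧
      Height.logHeight₁ (x / (2 - x)) ≤ Module.finrank ℚ L * (Real.log B + 3 * Real.log 2) ∧
      κ * (cnt {2} (pts K) (x / (2 - x)) + Real.log |(NumberField.discr L : ℝ)|) ≤
        Module.finrank ℚ L * (Real.log B - c) ∧
      κ * (cnt {2} (pts K) (x / (2 - x)) + Real.log |(NumberField.discr L : ℝ)|) ≤
        Height.logHeight₁ (x / (2 - x)) + Module.finrank ℚ L * (4 * Real.log 2 - c) := by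
  obtain ⟨hx0, hx1, hB, hv⟩ := hx
  set z : Fin 3 → L := ![x, 1 - x, -1] with hz
  have z0 : z 0 = x := rfl
  have z1 : z 1 = 1 - x := rfl
  have z2 : z 2 = -1 := rfl
  have hs : z 0 + z 1 + z 2 = 0 := by rw [z0, z1, z2]; ring
  have h12 : z 1 ≠ z 2 := by
    rw [z1, z2]
    intro h
    apply h2
    linear_combination -h
  have h0' : z 0 ≠ 0 := hx0
  have h1' : z 1 ≠ 0 := by
    rw [z1]
    exact sub_ne_zero.2 (Ne.symm hx1)
  have h2' : z 2 ≠ 0 := by
    rw [z2]
    exact neg_ne_zero.2 one_ne_zero
  have hξ : z 0 / (z 1 - z 2) = x / (2 - x) := by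
    rw [z0, z1, z2]
    congr 1
    ring
  have hne := Pool.Agent.Y729.AX.ne_pts (K := K) hs h12 h0' h1' h2'
  have hup := Pool.Agent.Y729.AX.ht_up hs h12 h2'
  have hdown := Pool.Agent.Y729.AX.ht_down hs h12 h2'
  have hN : (0 : ℝ) < Module.finrank ℚ L := by exact_mod_cast Module.finrank_pos
  set R0 : ℝ := ∑ᶠ v : HeightOneSpectrum (𝓞 L),
      (open Classical in if ¬ (v.valuation L (z 0) = v.valuation L (z 1) ∧
        v.valuation L (z 1) = v.valuation L (z 2))
      then Real.log (Ideal.absNorm v.asIdeal) else 0) with hR0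
  have hcond : conductor z = R0 / Module.finrank ℚ L := rfl
  have hroot : rootDisc L = Real.log |(NumberField.discr L : ℝ)| / Module.finrank ℚ L := rfl
  have hhe : height z = Height.logHeight z / Module.finrank ℚ L := rfl
  rw [hhe] at hB hv
  rw [hcond, hroot] at hv
  have hB' : Height.logHeight z ≤ Module.finrank ℚ L * Real.log B := by
    rw [div_le_iff₀ hN] at hB
    linarith
  have hv' : Module.finrank ℚ L * c + κ * (R0 + Real.log |(NumberField.discr L : ℝ)|) ≤
      Height.logHeight z := by
    have h6 := mul_lt_mul_of_pos_right hv hN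
    have e1 : (c + κ * (Real.log |(NumberField.discr L : ℝ)| / Module.finrank ℚ L +
        R0 / Module.finrank ℚ L)) * Module.finrank ℚ L =
        Module.finrank ℚ L * c + κ * (R0 + Real.log |(NumberField.discr L : ℝ)|) := by
      field_simp
      ring
    have e2 : Height.logHeight z / Module.finrank ℚ L * Module.finrank ℚ L =
        Height.logHeight z := by
      field_simp
    rw [e1, e2] at h6
    exact h6.le
  have hcn : cnt {2} (pts K) (z 0 / (z 1 - z 2)) ≤ R0 := by
    classical
    rw [hR0]
    unfold Pool.Agent.Y729.RV.cnt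
    have hfin1 : {w : HeightOneSpectrum (𝓞 L) | ¬ (w.valuation L (z 0) = w.valuation L (z 1) ∧
        w.valuation L (z 1) = w.valuation L (z 2))}.Finite := by
      have hu : ∀ u : L, u ≠ 0 → {w : HeightOneSpectrum (𝓞 L) | w.valuation L u ≠ 1}.Finite := by
        intro u hu
        refine ((Pool.Agent.Y729.RV.val_fin hu).union
          (Pool.Agent.Y729.RV.val_fin (inv_ne_zero hu))).subset ?_
        intro w hw
        rcases lt_or_gt_of_ne hw with h9 | h9
        · exact Or.inl h9
        · right
          show w.valuation L u⁻¹ < 1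
          rw [map_inv₀]
          exact inv_lt_one_of_one_lt₀ h9
      refine ((hu _ h0').union ((hu _ h1').union (hu _ h2'))).subset ?_
      intro w hw
      by_contra hcon
      simp only [Set.mem_union, Set.mem_ofPred_eq, not_or, not_not] at hcon
      apply hw
      rw [hcon.1, hcon.2.1, hcon.2.2]
      exact ⟨rfl, rfl⟩
    refine finsum_le_finsum' ?_ ?_ ?_
    · refine (Pool.Agent.Y729.RV.nr_fin {2} hne).subset fun w hw => ?_
      rw [Function.mem_support] at hw
      by_contra hcon
      exact hw (if_neg hcon)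
    · refine hfin1.subset fun w hw => ?_
      rw [Function.mem_support] at hw
      by_contra hcon
      exact hw (if_neg hcon)
    · intro w
      by_cases hc : Pool.Agent.Y729.RV.Nr {2} (pts K) (z 0 / (z 1 - z 2)) w
      · have := Pool.Agent.Y729.AX.near_ne (K := K) (Finset.mem_singleton_self 2) hs h12 h0' hc
        simp only [if_pos hc, if_pos this, le_refl]
      · simp only [if_neg hc]
        split_ifs
        · exact le_rfl
        · exact Real.log_natCast_nonneg _
  have hmul : κ * cnt {2} (pts K) (z 0 / (z 1 - z 2)) ≤ κ * R0 :=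
    mul_le_mul_of_nonneg_left hcn hκ.le
  rw [hξ] at hne hup hdown hmul
  refine ⟨hne, ?_, ?_, ?_⟩
  · rw [mul_add]
    linarith
  · rw [mul_add, mul_sub]
    rw [mul_add] at hv'
    linarith
  · rw [mul_add, mul_sub]
    rw [mul_add] at hv'
    linarith

end core

/-- **Few violations of the uniform abc inequality over the extensions of a number field.** There is
a function `α` with `α 1 = 2 / 3`, `2 / 3 ≤ α n ≤ (n + 2) (n - 1) / (4 (n - n / p))` (`p` the least
prime factor of `n ≥ 2`) and `α n = O((log n)²)`, such that for every number field `K` of degree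
`d`, all `n ≥ 1`, `κ > 0`, `c` and `δ > 0` there is `C` with the following properties for all
`B ≥ 1`.
(A) There are at most `C * B ^ (d * n * α_n / κ + δ)` pairs `(L, x)` with `[L : K] = n`, `x ∈ L` and
`H(x, 1 - x, -1) ≤ B` which violate `H ≤ exp(c) * (δ_L * N) ^ κ`.
(B) There are at most `C * B ^ (d * n * exponent (α_n) n κ + δ)` elements `x` of degree `n` over `K`
with `H(x, 1 - x, -1) ≤ B` which violate the inequality over some number field `L ⊇ K(x)`.
If `κ > α_n / (3 α_n + n - 1)`, a number `≤ 1/3` (`< 1/3` for `n ≥ 2`), then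
`exponent (α_n) n κ < n + 1`, while the number of all `x` of degree `n` over `K` and of height at
most `B` is of order `B ^ (d * n * (n + 1))` (Schanuel, Masser and Vaaler). -/
theorem result : ∃ α : ℕ → ℝ, α 1 = 2 / 3 ∧ (∀ n, 2 ≤ n → 2 / 3 ≤ α n ∧ α n ≤ schmidt n) ∧
    (∀ c : ℝ, 1 / (8 * (Real.log 2) ^ 2) < c →
      ∀ᶠ n : ℕ in Filter.atTop, α n ≤ c * (Real.log n) ^ 2) ∧
    (∀ n : ℕ, 1 ≤ n → α n / (3 * α n + n - 1) ≤ 1 / 3 ∧
      (2 ≤ n → α n / (3 * α n + n - 1) < 1 / 3) ∧
      ∀ κ : ℝ, α n / (3 * α n + n - 1) < κ → exponent (α n) n κ < n + 1) ∧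
    ∀ (K : Type) [Field K] [NumberField K] (n : ℕ), 1 ≤ n → ∀ κ c δ : ℝ, 0 < κ → 0 < δ →
    ∃ C : ℝ, ∀ B : ℝ, 1 ≤ B →
      ((Pairs K n κ c B).Finite ∧ ((Pairs K n κ c B).ncard : ℝ) ≤
        C * B ^ ((Module.finrank ℚ K : ℝ) * n * α n / κ + δ)) ∧
      (Points K n κ c B).Finite ∧ ((Points K n κ c B).ncard : ℝ) ≤
        C * B ^ ((Module.finrank ℚ K : ℝ) * n * exponent (α n) n κ + δ) := by
  classical
  obtain ⟨e, he1, he2, he3, he4, he5⟩ := Pool.Agent.Y729.AE.linnikK
  have hα23 : ∀ n, 2 / 3 ≤ max (e n) (2 / 3) := fun n => le_max_right _ _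
  refine ⟨fun n => max (e n) (2 / 3), ?_, ?_, ?_, ?_, ?_⟩
  · simp only [he4]
    norm_num
  · intro n hn
    exact ⟨hα23 n, max_le (he3 n hn) (schmidt_ge hn)⟩
  · intro c hc
    have hl2 : 0 < Real.log 2 := Real.log_pos (by norm_num)
    have hc0 : 0 < c := lt_trans (by positivity) hc
    have hlog : Filter.Tendsto (fun n : ℕ => Real.log n) Filter.atTop Filter.atTop :=
      Real.tendsto_log_atTop.comp tendsto_natCast_atTop_atTop
    have h1 : Filter.Tendsto (fun n : ℕ => c * (Real.log n) ^ 2) Filter.atTop Filter.atTop :=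
      Filter.Tendsto.const_mul_atTop hc0 ((Filter.tendsto_pow_atTop two_ne_zero).comp hlog)
    filter_upwards [he1 c hc, h1.eventually_ge_atTop (2 / 3)] with n hn1 hn2
    exact max_le hn1 hn2
  · intro r hr
    exact ⟨(threshold hr (hα23 r)).1, (threshold hr (hα23 r)).2,
      fun M hM => exponent_lt hr (hα23 r) hM⟩
  intro K _ _ r hr κ c δ hκ hδ
  simp only
  set α : ℝ := max (e r) (2 / 3) with hαd
  have hα : 2 / 3 ≤ α := hα23 r
  have hα0 : 0 < α := by linarith
  set d : ℕ := Module.finrank ℚ K with hd
  have hd0 : 0 < d := Module.finrank_pos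
  have hdR : (0 : ℝ) < d := by exact_mod_cast hd0
  have hr0 : (0 : ℝ) < r := by exact_mod_cast (show 0 < r by omega)
  obtain ⟨n, hn⟩ : ∃ n : ℝ, n = r := ⟨r, rfl⟩
  have hn0 : 0 < n := by rw [hn]; exact hr0
  rw [← hn]
  obtain ⟨CF, hCF, hF⟩ := he5 r hr d
  have hFK := hF K rfl
  set a := pts K with ha
  have hS2 : ∀ p ∈ ({2} : Finset ℕ), p.Prime := by
    intro p hp
    rw [Finset.mem_singleton.1 hp]
    exact Nat.prime_two
  set l2 : ℝ := Real.log 2 with hl2
  have hl20 : 0 < l2 := Real.log_pos (by norm_num)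
  have hinj := Pool.Agent.Y729.AX.pts_inj (K := K)
  -- part (A)
  have hA : ∃ C : ℝ, 0 ≤ C ∧ ∀ B : ℝ, 1 ≤ B → (Pairs K r κ c B).Finite ∧
      ((Pairs K r κ c B).ncard : ℝ) ≤ C * B ^ ((d : ℝ) * n * α / κ + δ) := by
    set cc : ℝ := d * n * (3 * l2) + d * n * |c| / κ with hcc
    have hcc0 : 0 ≤ cc := by positivity
    obtain ⟨D, hD, hpm⟩ := Pool.Agent.Y729.AX.pair_main {2} hS2 a hinj (by norm_num) r (e r)
      (he2 r) CF hCF hFK α (le_max_left _ _) (by push_cast; linarith) (d * n) (d * n / κ) cc
      (by positivity) (by positivity) hcc0 hδ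
    -- the fields for `x = 2`
    obtain ⟨b2, hb2⟩ : ∃ b2 : ℝ, 0 ≤ b2 ∧ ∀ (L : Type) [Field L] [NumberField L],
        Height.logHeight (![(2 : L), 1 - 2, -1]) ≤ Module.finrank ℚ L * b2 := by
      refine ⟨2 * l2, by positivity, fun L _ _ => ?_⟩
      have hsum : (![(2 : L), 1 - 2, -1] : Fin 3 → L) 0 + ![(2 : L), 1 - 2, -1] 1 +
          ![(2 : L), 1 - 2, -1] 2 = 0 := by
        show (2 : L) + (1 - 2) + -1 = 0
        ring
      have h1 := Pool.Agent.Y729.AX.pair_le hsum
      have h2 : Height.logHeight ![(![(2 : L), 1 - 2, -1] : Fin 3 → L) 1,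
          (![(2 : L), 1 - 2, -1] : Fin 3 → L) 2] = 0 := by
        have h3 : (![(![(2 : L), 1 - 2, -1] : Fin 3 → L) 1,
          (![(2 : L), 1 - 2, -1] : Fin 3 → L) 2] : Fin 2 → L) = ![(-1 : L), -1] := by
          funext i
          fin_cases i
          · show (1 : L) - 2 = -1
            ring
          · rfl
        rw [h3, ← Height.logHeight₁_div_eq_logHeight, div_self (by norm_num : (-1 : L) ≠ 0),
          Height.logHeight₁_one]
      rw [h2] at h1
      have h4 : (0 : ℝ) ≤ Module.finrank ℚ L := Nat.cast_nonneg _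
      nlinarith
    set X1 : ℝ := Real.exp (d * n * (b2 + |c|) / κ) with hX1
    have hX1' : 1 ≤ X1 := by
      have : 0 ≤ d * n * (b2 + |c|) / κ := by
        have := hb2.1
        positivity
      exact Real.one_le_exp this
    obtain ⟨hFf, hFc⟩ := hFK X1 hX1'
    set W2 : Set (IntermediateField K (AlgebraicClosure K) × AlgebraicClosure K) :=
      (fun L => (L, (2 : AlgebraicClosure K))) '' (Pool.Agent.W301.Lin.FS K r X1) with hW2
    have hW2f : W2.Finite := hFf.image _
    set ψ : IntermediateField K (AlgebraicClosure K) × AlgebraicClosure K →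
      IntermediateField K (AlgebraicClosure K) × AlgebraicClosure K :=
      fun p => (p.1, 2 * p.2 / (1 + p.2)) with hψ
    refine ⟨D + W2.ncard, by positivity, fun B hB1 => ?_⟩
    have hlB : 0 ≤ Real.log B := Real.log_nonneg hB1
    have hB0 : 0 < B := by linarith
    obtain ⟨hfin, hcard⟩ := hpm (Real.log B) hlB
    set V := Pool.Agent.Y729.AX.Pr {2} a r (d * n * Real.log B + cc)
      (d * n / κ * Real.log B + cc) with hV
    have hsub : Pairs K r κ c B ⊆ ψ '' V ∪ W2 := by
      rintro ⟨L, z⟩ ⟨hdeg, hLN, x, hx, hvx⟩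
      simp only at hdeg hLN x hx
      have : FiniteDimensional K L := Module.Finite.of_restrictScalars_finite ℚ K L
      have htowQ : (Module.finrank ℚ L : ℝ) = d * n := by
        have h5 : Module.finrank ℚ K * Module.finrank K L = Module.finrank ℚ L :=
          Module.finrank_mul_finrank ℚ K L
        rw [hdeg] at h5
        rw [hn]
        exact_mod_cast h5.symm
      have hN : (0 : ℝ) < Module.finrank ℚ L := by rw [htowQ]; positivity
      by_cases h2 : x = 2
      · refine Or.inr ⟨L, ⟨hdeg, hLN, ?_⟩, ?_⟩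
        · obtain ⟨-, -, -, hv⟩ := hvx
          rw [h2] at hv
          have h3 := hb2.2 L
          have hcond : 0 ≤ conductor (![(2 : L), 1 - 2, -1] : Fin 3 → L) := by
            unfold conductor
            refine div_nonneg (finsum_nonneg fun w => ?_) hN.le
            split_ifs
            · exact le_rfl
            · exact Real.log_natCast_nonneg _
          have h4 : height (![(2 : L), 1 - 2, -1] : Fin 3 → L) ≤ b2 := by
            unfold height
            rw [div_le_iff₀ hN]
            linarith
          have h5 : κ * rootDisc L ≤ b2 + |c| := by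
            have := neg_abs_le c
            have h6 : 0 ≤ κ * conductor (![(2 : L), 1 - 2, -1] : Fin 3 → L) := by positivity
            rw [mul_add] at hv
            linarith
          have h6 : Real.log |(NumberField.discr L : ℝ)| ≤ d * n * (b2 + |c|) / κ := by
            unfold rootDisc at h5
            rw [le_div_iff₀ hκ]
            rw [← mul_div_assoc, div_le_iff₀ hN, htowQ] at h5
            linarith
          have hpos : 0 < |(NumberField.discr L : ℝ)| := by
            rw [abs_pos]
            exact_mod_cast NumberField.discr_ne_zero L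
          have h7 : |(NumberField.discr L : ℝ)| ≤ X1 := by
            rw [hX1, ← Real.log_le_iff_le_exp hpos]
            exact h6
          exact_mod_cast h7
        · rw [← hx, h2]
          rfl
      · refine Or.inl ⟨(L, ((x / (2 - x) : L) : AlgebraicClosure K)), ?_, ?_⟩
        · obtain ⟨c1, c2, c3, c4⟩ := core (K := K) hκ hvx h2
          refine ⟨hLN, x / (2 - x), rfl, hdeg, c1, ?_, ?_⟩
          · refine c2.trans ?_
            rw [htowQ, hcc]
            have : 0 ≤ d * n * |c| / κ := by positivity
            nlinarith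
          · have h3 : Pool.Agent.Y729.RV.cnt {2} a (x / (2 - x)) +
                Real.log |(NumberField.discr L : ℝ)| ≤ d * n * (Real.log B - c) / κ := by
              rw [le_div_iff₀ hκ, ← htowQ]
              linarith
            refine h3.trans ?_
            have h4 : d * n * (Real.log B - c) / κ ≤ d * n * (Real.log B + |c|) / κ := by
              gcongr
              have := neg_abs_le c
              linarith
            refine h4.trans ?_
            rw [hcc]
            have h5 : d * n * (Real.log B + |c|) / κ = d * n / κ * Real.log B +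
              d * n * |c| / κ := by ring
            rw [h5]
            have : 0 ≤ d * n * (3 * l2) := by positivity
            linarith
        · rw [hψ]
          refine Prod.ext rfl ?_
          show 2 * ((x / (2 - x) : L) : AlgebraicClosure K) /
            (1 + ((x / (2 - x) : L) : AlgebraicClosure K)) = z
          have h3 : (2 : AlgebraicClosure K) - x ≠ 0 := by
            intro h4
            apply h2
            apply Subtype.ext
            rw [sub_eq_zero] at h4
            rw [← h4]
            rfl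
          have h4 : ((x / (2 - x) : L) : AlgebraicClosure K) = (x : AlgebraicClosure K) / (2 - x) :=
            rfl
          rw [h4, ← hx]
          field_simp
          ring
    have hfin2 : (ψ '' V ∪ W2).Finite := (hfin.image ψ).union hW2f
    refine ⟨hfin2.subset hsub, ?_⟩
    have h3 : ((Pairs K r κ c B).ncard : ℝ) ≤ (V.ncard : ℝ) + W2.ncard := by
      have h4 := (Set.ncard_le_ncard hsub hfin2).trans (Set.ncard_union_le _ _)
      have h5 := Set.ncard_image_le (f := ψ) hfin
      exact_mod_cast (by omega : (Pairs K r κ c B).ncard ≤ V.ncard + W2.ncard)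
    have hBe : B ^ ((d : ℝ) * n * α / κ + δ) =
        Real.exp (Real.log B * (d * n * α / κ + δ)) := Real.rpow_def_of_pos hB0 _
    have hone : (1 : ℝ) ≤ B ^ ((d : ℝ) * n * α / κ + δ) :=
      Real.one_le_rpow hB1 (by positivity)
    rw [add_mul]
    refine h3.trans (add_le_add (hcard.trans (le_of_eq ?_)) ?_)
    · rw [hBe]
      congr 2
      ring
    · exact le_mul_of_one_le_right (Nat.cast_nonneg _) hone
  -- part (B)
  have hBp : ∃ C : ℝ, 0 ≤ C ∧ ∀ B : ℝ, 1 ≤ B → (Points K r κ c B).Finite ∧
      ((Points K r κ c B).ncard : ℝ) ≤ C * B ^ ((d : ℝ) * n * exponent α r κ + δ) := by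
    set C1 : ℝ := d * n * ((4 * l2 - c) / κ) with hC1
    set Cx : ℝ := d * n * (3 * l2) with hCx
    obtain ⟨D, hD, hcomb⟩ := Pool.Agent.Y729.RV.comb {2} hS2 a hinj
      (le_refl 3) r hr (e r) (he2 r) CF hCF hFK α (le_max_left _ _)
      (by push_cast; linarith) (3 - 1 / κ) C1
      (by push_cast; have : 0 < 1 / κ := by positivity
          linarith)
      (show 0 < δ / (d * n) by positivity)
    have hxp := exponent_eq α r κ
    have hxp0 := exponent_nonneg hr hα hκ
    rw [hxp] at hcomb
    refine ⟨D * Real.exp ((exponent α r κ + δ / (d * n)) * Cx) + 1, by positivity,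
      fun B hB1 => ?_⟩
    have hlB : 0 ≤ Real.log B := Real.log_nonneg hB1
    have hB0 : 0 < B := by linarith
    set X : ℝ := d * n * Real.log B + Cx with hX
    obtain ⟨hfin, hcard⟩ := hcomb X (by positivity)
    set V := Pool.Agent.Y729.RV.Vx {2} a r (3 - 1 / κ) C1 X with hV
    set ψ : AlgebraicClosure K → AlgebraicClosure K := fun t => 2 * t / (1 + t) with hψ
    have hsub : Points K r κ c B ⊆ ψ '' V ∪ {2} := by
      rintro z ⟨hdeg, L, hLN, x, hx, hvx⟩
      by_cases h2 : x = 2
      · refine Or.inr ?_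
        rw [Set.mem_singleton_iff, ← hx, h2]
        rfl
      have h2z : (2 : AlgebraicClosure K) - z ≠ 0 := by
        intro h4
        apply h2
        apply Subtype.ext
        rw [sub_eq_zero] at h4
        rw [hx, ← h4]
        rfl
      refine Or.inl ⟨z / (2 - z), ?_, ?_⟩
      swap
      · rw [hψ]
        simp only
        field_simp
        ring
      set y : AlgebraicClosure K := z / (2 - z) with hy
      set ξ : L := x / (2 - x) with hξ
      have hyξ : (ξ : AlgebraicClosure K) = y := by
        rw [hξ, hy, ← hx]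
        rfl
      have hfield : K⟮y⟯ = K⟮z⟯ := by
        refine le_antisymm ?_ ?_
        · rw [IntermediateField.adjoin_simple_le_iff, hy]
          have hz : z ∈ K⟮z⟯ := mem_adjoin_simple_self K z
          exact div_mem hz (sub_mem (ofNat_mem _ 2) hz)
        · rw [IntermediateField.adjoin_simple_le_iff]
          have hyy : y ∈ K⟮y⟯ := mem_adjoin_simple_self K y
          have hzy : z = 2 * y / (1 + y) := by
            rw [hy]
            field_simp
            ring
          rw [hzy]
          exact div_mem (mul_mem (ofNat_mem _ 2) hyy) (add_mem (one_mem _) hyy)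
      have hdeg' : Module.finrank K K⟮y⟯ = r := by rw [hfield, hdeg]
      have hyL : y ∈ L := by
        rw [← hyξ]
        exact ξ.2
      have hle : K⟮y⟯ ≤ L := IntermediateField.adjoin_simple_le_iff.mpr hyL
      let : Algebra K⟮y⟯ L := (IntermediateField.inclusion hle).toRingHom.toAlgebra
      have : IsScalarTower K K⟮y⟯ L := IsScalarTower.of_algebraMap_eq' rfl
      have hgen : algebraMap K⟮y⟯ L (AdjoinSimple.gen K y) = ξ := Subtype.ext hyξ.symm
      obtain ⟨c1, c2, c3, c4⟩ := core (K := K) hκ hvx h2
      rw [← hξ] at c1 c2 c3 c4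
      have hya : ∀ j, y ≠ algebraMap K (AlgebraicClosure K) (a j) := by
        intro j h9
        apply c1 j
        apply Subtype.ext
        rw [hyξ, h9]
        rfl
      have hgena : ∀ j, AdjoinSimple.gen K y ≠ algebraMap K K⟮y⟯ (a j) := by
        intro j h9
        apply c1 j
        rw [← hgen, h9]
        rfl
      have h3 := Pool.Agent.Y729.RV.base_cnt (L := L) {2} a (AdjoinSimple.gen K y) hgena
      rw [hgen] at h3
      have h4 : Height.logHeight₁ ξ =
          Module.finrank K⟮y⟯ L * Height.logHeight₁ (AdjoinSimple.gen K y) := by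
        rw [← hgen]
        exact Pool.Agent.Y729.AE.ht_ext (AdjoinSimple.gen K y)
      have hFL : (0 : ℝ) < Module.finrank K⟮y⟯ L := by exact_mod_cast Module.finrank_pos
      have : FiniteDimensional K L := Module.Finite.of_restrictScalars_finite ℚ K L
      have htow : (Module.finrank K L : ℝ) = n * Module.finrank K⟮y⟯ L := by
        have h5 : Module.finrank K K⟮y⟯ * Module.finrank K⟮y⟯ L = Module.finrank K L :=
          Module.finrank_mul_finrank K K⟮y⟯ L
        rw [hdeg'] at h5
        rw [hn]
        exact_mod_cast h5.symm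
      have htowQ : (Module.finrank ℚ L : ℝ) = d * Module.finrank K L := by
        have h5 : Module.finrank ℚ K * Module.finrank K L = Module.finrank ℚ L :=
          Module.finrank_mul_finrank ℚ K L
        exact_mod_cast h5.symm
      set f : ℝ := ((Module.finrank K⟮y⟯ L : ℕ) : ℝ) with hf
      set lg : ℝ := Height.logHeight₁ (AdjoinSimple.gen K y) with hlg
      have hNf : ((Module.finrank ℚ L : ℕ) : ℝ) = d * n * f := by rw [htowQ, htow]; ring
      rw [hNf] at c2 c4
      have h10 : f * (Pool.Agent.Y729.RV.cnt {2} a (AdjoinSimple.gen K y) +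
          Real.log |(NumberField.discr K⟮y⟯ : ℝ)|) ≤ f * (1 / κ * lg + C1) := by
        refine h3.trans ?_
        have h11 : Pool.Agent.Y729.RV.cnt {2} a ξ + Real.log |(NumberField.discr L : ℝ)| ≤
            (Height.logHeight₁ ξ + d * n * f * (4 * l2 - c)) / κ := by
          rw [le_div_iff₀ hκ]
          linarith
        refine h11.trans (le_of_eq ?_)
        rw [h4, hC1]
        field_simp
      refine ⟨hdeg', hya, ?_, ?_⟩
      · have h12 : f * lg ≤ f * X := by
          rw [h4] at c2
          refine c2.trans (le_of_eq ?_)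
          rw [hX, hCx]
          ring
        exact le_of_mul_le_mul_left h12 hFL
      · have e6 : ((3 : ℕ) : ℝ) - (3 - 1 / κ) = 1 / κ := by push_cast; ring
        rw [e6]
        exact le_of_mul_le_mul_left h10 hFL
    have hfin2 : (ψ '' V ∪ {2}).Finite := (hfin.image ψ).union (Set.finite_singleton _)
    refine ⟨hfin2.subset hsub, ?_⟩
    have h3 : ((Points K r κ c B).ncard : ℝ) ≤ (V.ncard : ℝ) + 1 := by
      have h4 := (Set.ncard_le_ncard hsub hfin2).trans (Set.ncard_union_le _ _)
      rw [Set.ncard_singleton] at h4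
      have h5 := Set.ncard_image_le (f := ψ) hfin
      exact_mod_cast (by omega : (Points K r κ c B).ncard ≤ V.ncard + 1)
    have hBe : B ^ ((d : ℝ) * n * exponent α r κ + δ) =
        Real.exp (Real.log B * (d * n * exponent α r κ + δ)) := Real.rpow_def_of_pos hB0 _
    have hone : (1 : ℝ) ≤ B ^ ((d : ℝ) * n * exponent α r κ + δ) :=
      Real.one_le_rpow hB1 (by positivity)
    rw [add_mul, one_mul]
    refine h3.trans (add_le_add (hcard.trans (le_of_eq ?_)) hone)
    rw [hBe, mul_assoc D, ← Real.exp_add, hX]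
    congr 2
    have e7 : δ / (d * n) * (d * n) = δ := by field_simp
    have e8 : (exponent α r κ + δ / (d * n)) * (d * n * Real.log B + Cx) =
        (exponent α r κ + δ / (d * n)) * Cx +
          Real.log B * (d * n * exponent α r κ + δ / (d * n) * (d * n)) := by ring
    rw [e8, e7]
  obtain ⟨CA, hCA, hA⟩ := hA
  obtain ⟨CB, hCB, hBp⟩ := hBp
  refine ⟨max CA CB, fun B hB => ⟨⟨(hA B hB).1, (hA B hB).2.trans ?_⟩, (hBp B hB).1,
    (hBp B hB).2.trans ?_⟩⟩
  · exact mul_le_mul_of_nonneg_right (le_max_left _ _) (Real.rpow_nonneg (by linarith) _)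
  · exact mul_le_mul_of_nonneg_right (le_max_right _ _) (Real.rpow_nonneg (by linarith) _)

end Pool.Agent.Results.MP_6e34ef_nt.RelativeViolators
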