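import Mathlib
import Pool.Agent.Y724.T4.ABC
import Pool.Agent.Y724.T4.RTH

set_option autoImplicit false

/-!
# The uniform abc inequality for the triples with sparse coordinates and sparse radical over all number
fields of bounded degree

For all finite sets `S` of primes and all `r` the inequality
`H(a) ≤ C δ_K ^ (1 + ε) N(a) ^ (1 + ε)` holds, with one constant `C`, for all number fields `K` of
degree at most `r` and all triples `a 0 + a 1 + a 2 = 0` over `K` whose coordinates and whose radical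
are sparse: sums of a bounded number of `S`-units with small coefficients, in a basis of the
`S`-integers of `K` with structure constants of the same kind.
-/

namespace Pool.Agent.Results.MP_6e34ef_nt.SparseTriples

open MvPolynomial NumberField

/-! ### Height, conductor, root discriminant -/

section field
variable {K : Type} [Field K] [NumberField K]

/-- The logarithm of the height `H(a 0, a 1, a 2)`. -/
noncomputable def logH (a : Fin 3 → K) : ℝ :=
  Height.logHeight a / Module.finrank ℚ K

/-- The logarithm of the conductor `N(a 0, a 1, a 2)`: the sum of `log #(𝓞 / 𝔭)` over the primes `𝔭`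
at which at least two of the `|a i|` differ, divided by the degree. -/
noncomputable def logN (a : Fin 3 → K) : ℝ :=
  (∑ᶠ v ∈ {v : FinitePlace K | ∃ i j, v (a i) ≠ v (a j)},
    Real.log ((Ideal.absNorm v.maximalIdeal.asIdeal : ℕ) : ℝ)) / Module.finrank ℚ K

variable (K) in
/-- The logarithm of the root discriminant `δ_K`. -/
noncomputable def logRootDisc : ℝ :=
  Real.log |((NumberField.discr K : ℤ) : ℝ)| / Module.finrank ℚ K

variable (K) in
/-- the finite places of `K` over the primes in `S` -/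
def placesOver (S : Finset ℕ) : Set (FinitePlace K) :=
  {v | ∃ p ∈ S, v (p : K) < 1}

/-- `ρ` is a radical of the triple `a` outside `S`: at the places not over `S` it has at most simple
zeros (Mathlib's `v ρ` is `#(𝓞 / 𝔭) ^ (- ord ρ)`), and only where at least two of the `|a i|`
differ. -/
def IsRadical (S : Finset ℕ) (a : Fin 3 → K) (ρ : K) : Prop :=
  ∀ v : FinitePlace K, v ∉ placesOver K S → v ρ < 1 →
    ((Ideal.absNorm v.maximalIdeal.asIdeal : ℕ) : ℝ)⁻¹ ≤ v ρ ∧ ∃ i j, v (a i) ≠ v (a j)

/-- The parameters of the elements `y k` of the number field with the basis `ω`: the structure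
constants of `ω` (the coordinates of the products `ω i * ω j`) and the coordinates of the `y k` in the
basis. -/
noncomputable def params {n : ℕ} {κ : Type} (ω : Module.Basis (Fin n) ℚ K) (y : κ → K) :
    (Fin n × Fin n × Fin n) ⊕ (κ × Fin n) → ℚ :=
  Sum.elim (fun t => ω.repr (ω t.1 * ω t.2.1) t.2.2) (fun t => ω.repr (y t.1) t.2)

/-- the numbers `a i`, `t i j` and `ρ` -/
def data (a : Fin 3 → K) (t : Fin 3 → Fin 3 → K) (ρ : K) : Fin 3 ⊕ (Fin 3 × Fin 3) ⊕ Unit → K :=
  Sum.elim a (Sum.elim (fun k => t k.1 k.2) (fun _ => ρ))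

/-- All algebraic integers of `K` are combinations of the `ω i` with `S`-integral coefficients. If
the structure constants of `ω` are `S`-integral as well, then `ω` is a basis over `ℤ_S` of the ring
of `S`-integers of `K`. -/
def SpansIntegers {n : ℕ} (S : Finset ℕ) (ω : Module.Basis (Fin n) ℚ K) : Prop :=
  ∀ (y : 𝓞 K) (i : Fin n) (p : ℕ), p.Prime → p ∣ (ω.repr (y : K) i).den → p ∈ S

end field

/-! ### Short sums of `S`-units -/

/-- `u` is an `S`-unit: plus or minus a product of powers (with integer exponents) of the primes in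
`S` -/
def IsSUnit (S : Finset ℕ) (u : ℚ) : Prop :=
  ∃ (σ : ℤ) (e : ℕ → ℤ), (σ = 1 ∨ σ = -1) ∧ u = σ * ∏ p ∈ S, (p : ℚ) ^ e p

/-- the maximum of the absolute values of the numerators and denominators of the `z i` -/
def size {ι : Type} [Fintype ι] (z : ι → ℚ) : ℕ :=
  Finset.univ.sup (fun i => max (z i).num.natAbs (z i).den)

/-- The rational vector `z` is a sum of `l` integer vectors with entries of absolute value at most
`B * H ^ δ`, `H` the size of `z`, multiplied by `S`-units. -/
def IsShortSum {ι : Type} [Fintype ι] (S : Finset ℕ) (l : ℕ) (B δ : ℝ) (z : ι → ℚ) : Prop :=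
  ∃ (u : Fin l → ℚ) (m : Fin l → ι → ℤ), (∀ j, IsSUnit S (u j)) ∧
    (∀ j i, |(m j i : ℝ)| ≤ B * (size z : ℝ) ^ δ) ∧ ∀ i, z i = ∑ j, u j * m j i

/-- The sparse triples over the number field `K` with the basis `ω`: there are a radical `ρ` of the
triple outside `S` and elements `t i j` of `K` with `ρ ^ m * a j = a i * t i j` for all `i`, `j` (if
the `t i j` are `S`-integral, this means that `ρ` vanishes wherever two of the `|a i|` differ, and
that no multiplicity exceeds `m`), such that the structure constants of `ω` and the coordinates of the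
`a i`, `t i j` and `ρ` with respect to `ω` together form a sum of `l` integer vectors with entries of
absolute value at most `B H ^ δ` multiplied by `S`-units, `H` their size, and
`log H ≤ A (log H(a) + 1)`. -/
def IsSparseTriple {K : Type} [Field K] [NumberField K] {n : ℕ} (S : Finset ℕ) (l m : ℕ)
    (A B δ : ℝ) (ω : Module.Basis (Fin n) ℚ K) (a : Fin 3 → K) : Prop :=
  ∃ (ρ : K) (t : Fin 3 → Fin 3 → K), ρ ≠ 0 ∧ (∀ i j, ρ ^ m * a j = a i * t i j) ∧
    IsRadical S a ρ ∧ IsShortSum S l B δ (params ω (data a t ρ)) ∧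
    Real.log (size (params ω (data a t ρ))) ≤ A * (logH a + 1)

/-- **Main theorem.** For all finite sets `S` of primes, all natural numbers `r`, `l`, `m` and all real
numbers `A`, `B` and `ε > 0` there are `δ > 0` and a constant `C` such that
`log H(a) ≤ (1 + ε) (log δ_K + log N(a)) + C` for all number fields `K` of degree `n ≤ r` and all
triples `a` of nonzero elements of `K` with sum `0` which are sparse with respect to some basis of
the `S`-integers of `K`. -/
theorem result (S : Finset ℕ) (hS : ∀ p ∈ S, p.Prime) (r l m : ℕ) (A B ε : ℝ) (hε : 0 < ε) :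
    ∃ (δ C : ℝ), 0 < δ ∧ ∀ (n : ℕ), n ≤ r → ∀ (K : Type) [Field K] [NumberField K]
      (ω : Module.Basis (Fin n) ℚ K) (a : Fin 3 → K), (∀ i, a i ≠ 0) → a 0 + a 1 + a 2 = 0 →
      SpansIntegers S ω → IsSparseTriple S l m A B δ ω a →
      logH a ≤ (1 + ε) * (logRootDisc K + logN a) + C := by
  classical
  set ε' : ℝ := ε / (1 + ε) with hε'
  have hε'0 : 0 < ε' := by positivity
  have hε'1 : (1 + ε) * (1 - ε') = 1 := by
    rw [hε']
    field_simp
    ring
  obtain ⟨δ, Φ, k, C, hδ, hΦh, ⟨z0, hz0, hΦz0⟩, hmain⟩ :=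
    Pool.Agent.Y724.T4.R7.main7 1 1 1 3 1 Pool.Agent.Y724.T4.lineG (fun _ => 1)
      Pool.Agent.Y724.T4.lineG_hom Pool.Agent.Y724.T4.lineF (fun _ _ => 1)
      Pool.Agent.Y724.T4.lineF_hom Pool.Agent.Y724.T4.line_dim Pool.Agent.Y724.T4.line_smooth S hS
      r l m 1 (fun _ _ => le_rfl) A B ε' hε'0
  -- the exceptional points
  set sub : Fin (1 + 1 + 1) → MvPolynomial (Fin 2) ℚ := ![X 0, X 1, -X 0 - X 1] with hsub
  set Ψ : MvPolynomial (Fin 2) ℚ := aeval sub Φ with hΨ
  have hΨev : ∀ (L : Type) [Field L] [CharZero L] (x : Fin (1 + 1 + 1) → L),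
      x 0 + x 1 + x 2 = 0 → aeval ![x 0, x 1] Ψ = aeval x Φ := by
    intro L _ _ x hx
    rw [hΨ, comp_aeval_apply sub (aeval ![x 0, x 1]) Φ]
    congr 2
    funext i
    rw [hsub]
    fin_cases i
    · simp
    · simp
    · change aeval ![x 0, x 1] (-X 0 - X 1 : MvPolynomial (Fin 2) ℚ) = x 2
      rw [map_sub, map_neg, aeval_X, aeval_X]
      change -x 0 - x 1 = x 2
      linear_combination -hx
  have hz00 : z0 0 + z0 1 + z0 2 = 0 := (Pool.Agent.Y724.T4.line_on z0).1 hz0
  have hΨ0 : Ψ ≠ 0 := by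
    intro h
    have h1 := hΨev ℂ z0 hz00
    rw [h, map_zero] at h1
    exact hΦz0 h1.symm
  have hΨh : Ψ.IsHomogeneous k := by
    have h1 := hΦh.aeval (g := sub) (n := 1) (fun i => by
      rw [hsub]
      fin_cases i
      · exact isHomogeneous_X _ _
      · exact isHomogeneous_X _ _
      · exact ((isHomogeneous_X _ _).neg).sub (isHomogeneous_X _ _))
    rwa [one_mul] at h1
  obtain ⟨C2, hC2, hroot⟩ := Pool.Agent.Y724.T4.root_height2 Ψ hΨ0 k hΨh
  refine ⟨δ, (1 + ε) * |C| + (C2 + Real.log 2), hδ, ?_⟩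
  intro n hn K _ _ ω a ha hsum hspan ⟨ρ, t, hρ0, ht, hrad, hshort, hlog⟩
  have hnK : Module.finrank ℚ K = n := by
    rw [Module.finrank_eq_card_basis ω, Fintype.card_fin]
  have hn0 : 0 < n := by
    rw [← hnK]
    exact Module.finrank_pos
  have hnR : (0 : ℝ) < n := by exact_mod_cast hn0
  have ha0 : a ≠ 0 := fun h => ha 0 (by rw [h]; rfl)
  have hD0 : 0 ≤ logRootDisc K := by
    refine div_nonneg (Real.log_nonneg ?_) (Nat.cast_nonneg _)
    have h1 : (1 : ℤ) ≤ |NumberField.discr K| := Int.one_le_abs (NumberField.discr_ne_zero K)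
    have h2 : ((1 : ℤ) : ℝ) ≤ ((|NumberField.discr K| : ℤ) : ℝ) := by exact_mod_cast h1
    rwa [Int.cast_abs, Int.cast_one] at h2
  have habs : ∀ v : FinitePlace K, 0 ≤
      Real.log ((Ideal.absNorm v.maximalIdeal.asIdeal : ℕ) : ℝ) := fun v => by
    refine Real.log_natCast_nonneg _
  have hN0 : 0 ≤ logN a := div_nonneg (finsum_nonneg fun v => finsum_nonneg fun _ => habs v)
    (Nat.cast_nonneg _)
  have hlog2 : 0 ≤ Real.log 2 := Real.log_nonneg one_le_two
  have hon : Pool.Agent.Y724.T4.R7.OnX Pool.Agent.Y724.T4.lineG a :=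
    (Pool.Agent.Y724.T4.line_on a).2 hsum
  by_cases hΦa : aeval a Φ = 0
  · -- exceptional points
    have h1 := hroot K ![a 0, a 1] (by rw [hΨev K a hsum, hΦa])
    have h2 := Pool.Agent.Y724.T4.height_third a ha0 hsum
    have h3 : logH a ≤ C2 + Real.log 2 := by
      unfold logH
      rw [hnK, div_le_iff₀ hnR]
      rw [hnK] at h1 h2
      linarith
    have h4 : 0 ≤ (1 + ε) * (logRootDisc K + logN a) := by positivity
    have h5 : 0 ≤ (1 + ε) * |C| := by positivity
    linarith
  · set b : Fin 3 → Fin (1 + 1 + 1) → Fin 1 → K := fun i y _ => t i y with hb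
    have hmul : Pool.Agent.Y724.T4.R7.IsMultiple Pool.Agent.Y724.T4.lineF m 1 a b ρ := by
      intro i y
      rw [pow_one, Fin.sum_univ_one, ht i y]
      unfold Pool.Agent.Y724.T4.lineF
      rw [aeval_X]
    -- the parameters
    set g : Fin (1 + 1 + 1) ⊕ (Fin 3 × Fin (1 + 1 + 1) × Fin 1) ⊕ Unit →
      Fin 3 ⊕ (Fin 3 × Fin 3) ⊕ Unit :=
      Sum.map id (Sum.map (fun k => (k.1, k.2.1)) id) with hg
    have hgs : Function.Surjective g := by
      rintro (i | ⟨i, j⟩ | i)
      · exact ⟨Sum.inl i, rfl⟩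
      · exact ⟨Sum.inr (Sum.inl (i, j, 0)), rfl⟩
      · exact ⟨Sum.inr (Sum.inr i), rfl⟩
    set e : (Fin n × Fin n × Fin n) ⊕
      ((Fin (1 + 1 + 1) ⊕ (Fin 3 × Fin (1 + 1 + 1) × Fin 1) ⊕ Unit) × Fin n) →
      (Fin n × Fin n × Fin n) ⊕ ((Fin 3 ⊕ (Fin 3 × Fin 3) ⊕ Unit) × Fin n) :=
      Sum.map id (Prod.map g id) with he
    have hes : Function.Surjective e := by
      rintro (i | ⟨i, j⟩)
      · exact ⟨Sum.inl i, rfl⟩
      · obtain ⟨i', rfl⟩ := hgs i
        exact ⟨Sum.inr (i', j), rfl⟩
    have hpar : Pool.Agent.Y724.T4.R7.params ω (Pool.Agent.Y724.T4.R7.data a b ρ) =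
        params ω (data a t ρ) ∘ e := by
      funext k
      rcases k with k | ⟨k | ⟨k, j, j'⟩ | k, i⟩
      · rfl
      · rfl
      · rfl
      · rfl
    have hsz : Pool.Agent.Y724.T4.R7.size (Pool.Agent.Y724.T4.R7.params ω
        (Pool.Agent.Y724.T4.R7.data a b ρ)) = size (params ω (data a t ρ)) := by
      rw [hpar, Pool.Agent.Y724.T4.size_comp _ e hes]
      rfl
    have hsh : Pool.Agent.Y724.T4.R7.IsShortSum S l B δ (Pool.Agent.Y724.T4.R7.params ω
        (Pool.Agent.Y724.T4.R7.data a b ρ)) := by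
      rw [hpar]
      exact Pool.Agent.Y724.T4.short_comp _ e hes hshort
    have h1 := (hmain n hn K ω a b ρ hon hρ0 hmul hsh hΦa _
      (Pool.Agent.Y724.T4.lineT_basis a)).2 hspan (by rw [hsz]; exact hlog)
      (fun v hv hv1 => ⟨(hrad v hv hv1).1,
        (Pool.Agent.Y724.T4.line_meets a ha v).2 (hrad v hv hv1).2⟩)
    have h2 := Pool.Agent.Y724.T4.line_truncated S a ha
    rw [Pool.Agent.Y724.T4.line_canonical, Pool.Agent.Y724.T4.line_divisor a ha] at h1
    have h3 : -2 * Height.logHeight a / Module.finrank ℚ K +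
        3 * Height.logHeight a / Module.finrank ℚ K = logH a := by
      unfold logH
      ring
    rw [h3] at h1
    have h4 : Pool.Agent.Y724.T4.R7.height a = logH a := rfl
    have h5 : Pool.Agent.Y724.T4.R7.logDisc K = logRootDisc K := rfl
    rw [h4, h5] at h1
    have h6 : (1 - ε') * logH a ≤ logRootDisc K + logN a + |C| := by
      have h7 : Pool.Agent.Y724.T4.R7.truncated Pool.Agent.Y724.T4.lineF (fun _ _ => 1) S a ≤
        logN a := h2
      have h8 := le_abs_self C
      linarith
    have h7 := mul_le_mul_of_nonneg_left h6 (by linarith : (0 : ℝ) ≤ 1 + ε)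
    rw [← mul_assoc, hε'1, one_mul] at h7
    have h8 : 0 ≤ C2 + Real.log 2 := by linarith
    linarith

end Pool.Agent.Results.MP_6e34ef_nt.SparseTriples
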